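import Pool.Agent.Helper51.Hart.Defs2

/-!
# HT-24: vanishing of the circular average
-/

set_option autoImplicit false

noncomputable section

open Set Metric Complex MeasureTheory Filter Topology

namespace Pool.Helper51.Hart

variable {ρ : ℂ × ℂ → ℝ}

theorem continuous_avg_norm {F : ℂ × ℂ → ℂ} (hc : Continuous F) :
    Continuous fun p : ℂ × ℂ => avg F ‖p.1‖ p.2 := by
  unfold avg
  refine continuous_const.mul ?_
  apply intervalIntegral.continuous_parametric_intervalIntegral_of_continuous'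
  have : Continuous fun q : (ℂ × ℂ) × ℝ =>
      (((‖q.1.1‖ : ℝ) : ℂ) * Complex.exp (q.2 * I), q.1.2) := by fun_prop
  exact hc.comp this

theorem avg_zero {F : ℂ × ℂ → ℂ} (hz : ∀ w, F (0, w) = 0) (w : ℂ) : avg F 0 w = 0 := by
  unfold avg
  simp [hz]

/-- complex differentiability of the average along horizontal directions -/
theorem hasDerivAt_of_tay {σ : ℝ × ℂ → ℝ} {A0 A1 A2 : ℝ → ℂ → ℂ} (hj : JetSys σ A0 A1 A2)
    {r ε : ℝ} {w : ℂ} (hr : 0 ≤ r) (hε : 0 < ε) (h : ∀ w' ∈ ball w ε, σ (r, w') ≤ 0) :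
    HasDerivAt (fun w' => A0 r w') (A1 r w) w := by
  obtain ⟨C, hC, htay⟩ := hj.tay
  rw [hasDerivAt_iff_isLittleO]
  have hbig : (fun w' => A0 r w' - A0 r w - (w' - w) • A1 r w) =O[𝓝 w] fun w' => ‖w' - w‖ ^ 2 := by
    refine Asymptotics.IsBigO.of_bound (C + ‖A2 r w‖) ?_
    filter_upwards [ball_mem_nhds w hε, ball_mem_nhds w one_pos] with w' h1 h2
    have hseg : ∀ t ∈ Icc (0 : ℝ) 1, σ (r, w + t * (w' - w)) ≤ 0 := by
      intro t ht
      apply h
      rw [mem_ball, dist_eq_norm] at h1 ⊢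
      rw [add_sub_cancel_left, norm_mul, Complex.norm_real, Real.norm_of_nonneg ht.1]
      calc t * ‖w' - w‖ ≤ 1 * ‖w' - w‖ := by gcongr; exact ht.2
        _ < ε := by rw [one_mul]; exact h1
    have h3 := (htay r w w' hr hseg).1
    rw [mem_ball, dist_eq_norm] at h2
    have e1 : A0 r w' - A0 r w - (w' - w) • A1 r w =
        (A0 r w' - tpoly A0 A1 A2 r w w') + A2 r w * (w' - w) ^ 2 / 2 := by
      unfold tpoly
      rw [smul_eq_mul]
      ring
    rw [e1, norm_pow, norm_norm]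
    refine (norm_add_le _ _).trans ?_
    have e2 : ‖A2 r w * (w' - w) ^ 2 / 2‖ ≤ ‖A2 r w‖ * ‖w' - w‖ ^ 2 := by
      rw [norm_div, norm_mul, norm_pow]
      have : ‖(2 : ℂ)‖ = 2 := by norm_num
      rw [this]
      have := mul_nonneg (norm_nonneg (A2 r w)) (sq_nonneg ‖w' - w‖)
      linarith
    have e3 : C * ‖w' - w‖ ^ 3 ≤ C * ‖w' - w‖ ^ 2 := by
      have : ‖w' - w‖ ^ 3 ≤ ‖w' - w‖ ^ 2 := pow_le_pow_of_le_one (norm_nonneg _) h2.le (by norm_num)
      gcongr
    calc _ ≤ C * ‖w' - w‖ ^ 3 + ‖A2 r w‖ * ‖w' - w‖ ^ 2 := add_le_add h3 e2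
      _ ≤ (C + ‖A2 r w‖) * ‖w' - w‖ ^ 2 := by linarith
  exact hbig.trans_isLittleO (Asymptotics.isLittleO_pow_sub_sub w one_lt_two)

/-- a point of the axis inside the domain -/
theorem exists_axis (hρ : HDom ρ) (hf : HFacts ρ) {w0 : ℂ} (h0 : ρ (0, w0) ≤ 0) :
    ∃ w1 : ℂ, ρ (0, w1) < 0 := by
  rcases h0.lt_or_eq with h | h
  · exact ⟨w0, h⟩
  have hreg := hρ.reg (0, w0) h
  have hax := hf.axis w0 h
  have hdiff : DifferentiableAt ℝ ρ (0, w0) := (hρ.smooth.differentiable (by simp)) _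
  obtain ⟨v, hv⟩ : ∃ v : ℂ, fderiv ℝ ρ (0, w0) (0, v) < 0 := by
    by_contra hcon
    push Not at hcon
    apply hreg
    refine ContinuousLinearMap.ext fun p => ?_
    have e1 : p = (p.1, 0) + (0, p.2) := by ext <;> simp
    have h1 := hcon p.2
    have h2 := hcon (-p.2)
    have e2 : ((0 : ℂ), -p.2) = -((0 : ℂ), p.2) := by ext <;> simp
    rw [e2, map_neg] at h2
    rw [e1, map_add, hax p.1]
    have : fderiv ℝ ρ (0, w0) (0, p.2) = 0 := by linarith
    rw [this]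
    simp
  have hline : HasDerivAt (fun t : ℝ => ρ (0, w0 + t * v)) (fderiv ℝ ρ (0, w0) (0, v)) 0 := by
    have h1 : HasDerivAt (fun t : ℝ => ((0 : ℂ), w0 + t * v)) ((0 : ℂ), v) 0 := by
      refine HasDerivAt.prodMk (hasDerivAt_const _ _) ?_
      have h2 : HasDerivAt (fun t : ℝ => (t : ℂ) * v) (1 * v) 0 :=
        (Complex.ofRealCLM.hasDerivAt (x := (0 : ℝ))).mul_const v
      rw [one_mul] at h2
      exact h2.const_add w0
    have h3 : HasFDerivAt ρ (fderiv ℝ ρ (0, w0)) ((fun t : ℝ => ((0 : ℂ), w0 + t * v)) 0) := by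
      simp only [Complex.ofReal_zero, zero_mul, add_zero]
      exact hdiff.hasFDerivAt
    exact h3.comp_hasDerivAt (0 : ℝ) h1
  have hneg : ∀ᶠ t : ℝ in 𝓝[>] (0 : ℝ), ρ (0, w0 + t * v) < 0 := by
    have h4 := (hasDerivAt_iff_tendsto_slope.1 hline).mono_left
      (nhdsWithin_mono (0 : ℝ) (fun t (ht : t ∈ Ioi (0 : ℝ)) => ne_of_gt ht))
    have h5 := h4.eventually_lt_const hv
    filter_upwards [h5, self_mem_nhdsWithin] with t ht htpos
    rw [slope_def_field] at ht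
    simp only [Complex.ofReal_zero, zero_mul, add_zero, h, sub_zero] at ht
    have ht0 : (0 : ℝ) < t := htpos
    by_contra hcon
    rw [not_lt] at hcon
    have : 0 ≤ ρ (0, w0 + t * v) / t := div_nonneg hcon ht0.le
    linarith
  obtain ⟨t, ht⟩ := hneg.exists
  exact ⟨_, ht⟩

/-- HT-24 -/
theorem avg_vanish (hρ : HDom ρ) (hf : HFacts ρ) (hconn : IsConnected {p | ρ p < 0})
    {F F1 F2 : ℂ × ℂ → ℂ} (hc : Continuous F)
    (hj : JetSys (sl ρ) (avg F) (avg F1) (avg F2)) (hz : ∀ w, F (0, w) = 0)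
    {w0 : ℂ} (h0 : ρ (0, w0) ≤ 0) :
    ∀ (r : ℝ) (w : ℂ), 0 ≤ r → ρ (r, w) ≤ 0 → avg F r w = 0 := by
  have hρc : Continuous ρ := hρ.smooth.continuous
  set u : ℂ × ℂ → ℂ := fun p => avg F ‖p.1‖ p.2 with hu
  have huc : Continuous u := continuous_avg_norm hc
  set G : Set (ℂ × ℂ) := {p | ∀ᶠ q in 𝓝 p, u q = 0} with hG
  have hGo : IsOpen G := isOpen_setOfPred_eventually_nhds
  have hΩo : IsOpen {p | ρ p < 0} := isOpen_lt hρc continuous_const
  -- vertical independence in a polydisc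
  have hvert : ∀ (z0 w' : ℂ) (ε : ℝ), (∀ z, ‖z - z0‖ < ε → ρ (z, w') < 0) →
      ∀ z z', ‖z - z0‖ < ε → ‖z' - z0‖ < ε → avg F ‖z‖ w' = avg F ‖z'‖ w' := by
    intro z0 w' ε hball z z' hz1 hz2
    refine (hj.fib ‖z‖ ‖z'‖ w' (norm_nonneg _) (norm_nonneg _) ?_).1
    intro s hs
    have hs1 : |s - ‖z0‖| < ε := by
      have a1 : |‖z‖ - ‖z0‖| < ε := lt_of_le_of_lt (abs_norm_sub_norm_le _ _) hz1
      have a2 : |‖z'‖ - ‖z0‖| < ε := lt_of_le_of_lt (abs_norm_sub_norm_le _ _) hz2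
      rw [abs_lt] at a1 a2 ⊢
      rw [mem_uIcc] at hs
      rcases hs with hs | hs
      · constructor <;> linarith [hs.1, hs.2]
      · constructor <;> linarith [hs.1, hs.2]
    have hs0 : 0 ≤ s := by
      rw [mem_uIcc] at hs
      rcases hs with hs | hs
      · exact (norm_nonneg _).trans hs.1
      · exact (norm_nonneg _).trans hs.1
    obtain ⟨z'', hz'', hn⟩ : ∃ z'' : ℂ, ‖z'' - z0‖ < ε ∧ ‖z''‖ = s := by
      by_cases h : z0 = 0
      · refine ⟨(s : ℂ), ?_, ?_⟩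
        · rw [h, sub_zero, Complex.norm_real, Real.norm_of_nonneg hs0]
          rw [h, norm_zero, sub_zero, abs_of_nonneg hs0] at hs1
          exact hs1
        · rw [Complex.norm_real, Real.norm_of_nonneg hs0]
      · have hn0 : 0 < ‖z0‖ := norm_pos_iff.2 h
        refine ⟨((s / ‖z0‖ : ℝ) : ℂ) * z0, ?_, ?_⟩
        · have : ((s / ‖z0‖ : ℝ) : ℂ) * z0 - z0 = (((s - ‖z0‖) / ‖z0‖ : ℝ) : ℂ) * z0 := by
            have : ((‖z0‖ : ℝ) : ℂ) ≠ 0 := by exact_mod_cast hn0.ne'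
            push_cast
            field_simp
          rw [this, norm_mul, Complex.norm_real, Real.norm_eq_abs, abs_div, abs_norm,
            div_mul_cancel₀ _ hn0.ne']
          exact hs1
        · rw [norm_mul, Complex.norm_real, Real.norm_eq_abs, abs_div, abs_norm,
            div_mul_cancel₀ _ hn0.ne', abs_of_nonneg hs0]
    have := (hf.norm_lt z'' w').1 (hball z'' hz'')
    rw [hn] at this
    exact this.le
  -- the axis point
  obtain ⟨w1, hw1⟩ := exists_axis hρ hf h0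
  have hne : ({p | ρ p < 0} ∩ G).Nonempty := by
    refine ⟨(0, w1), hw1, ?_⟩
    obtain ⟨ε, hε, hball⟩ := Metric.isOpen_iff.1 hΩo (0, w1) hw1
    have : ball ((0 : ℂ), w1) ε ∈ 𝓝 ((0 : ℂ), w1) := ball_mem_nhds _ hε
    change ∀ᶠ q in 𝓝 ((0 : ℂ), w1), u q = 0
    filter_upwards [this] with q hq
    rw [mem_ball, Prod.dist_eq, max_lt_iff] at hq
    have h1 := hvert 0 q.2 ε (fun z hz' => hball (by
      rw [mem_ball, Prod.dist_eq, max_lt_iff]
      exact ⟨by rw [dist_eq_norm]; exact hz', hq.2⟩)) q.1 0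
      (by rw [← dist_eq_norm]; exact hq.1) (by simpa using hε)
    rw [norm_zero, avg_zero hz] at h1
    exact h1
  have hclosed : closure G ∩ {p | ρ p < 0} ⊆ G := by
    rintro ⟨z0, w'⟩ ⟨hcl, hp⟩
    obtain ⟨ε, hε, hball⟩ := Metric.isOpen_iff.1 hΩo (z0, w') hp
    obtain ⟨q, hqG, hq⟩ := Metric.mem_closure_iff.1 hcl ε hε
    rw [dist_comm, Prod.dist_eq, max_lt_iff] at hq
    have hin : ∀ z w'', ‖z - z0‖ < ε → ‖w'' - w'‖ < ε → ρ (z, w'') < 0 := by
      intro z w'' h1 h2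
      exact hball (by
        rw [mem_ball, Prod.dist_eq, max_lt_iff, dist_eq_norm, dist_eq_norm]
        exact ⟨h1, h2⟩)
    -- the holomorphic function
    set g : ℂ → ℂ := fun w'' => avg F ‖z0‖ w'' with hg
    have hder : ∀ w'' ∈ ball w' ε, HasDerivAt g (avg F1 ‖z0‖ w'') w'' := by
      intro w'' hw''
      obtain ⟨δ, hδ, hsub⟩ := Metric.isOpen_iff.1 isOpen_ball w'' hw''
      refine hasDerivAt_of_tay hj (norm_nonneg _) hδ fun w3 hw3 => ?_
      have h3 := hsub hw3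
      rw [mem_ball, dist_eq_norm] at h3
      have h4 := hin z0 w3 (by simpa using hε) h3
      exact ((hf.norm_lt z0 w3).1 h4).le
    have han : AnalyticOnNhd ℂ g (ball w' ε) := by
      have hd : DifferentiableOn ℂ g (ball w' ε) := fun w'' hw'' =>
        (hder w'' hw'').differentiableAt.differentiableWithinAt
      exact hd.analyticOnNhd isOpen_ball
    have hq2 : q.2 ∈ ball w' ε := hq.2
    have hev : g =ᶠ[𝓝 q.2] 0 := by
      have h1 : ∀ᶠ w'' in 𝓝 q.2, u (q.1, w'') = 0 := by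
        have hcont : Continuous fun w'' : ℂ => (q.1, w'') := by fun_prop
        have h2 : ∀ᶠ y in 𝓝 ((fun w'' : ℂ => (q.1, w'')) q.2), u y = 0 := hqG
        exact (hcont.continuousAt (x := q.2)).eventually h2
      filter_upwards [h1, isOpen_ball.mem_nhds hq2] with w'' h2 h3
      rw [mem_ball, dist_eq_norm] at h3
      have h4 := hvert z0 w'' ε (fun z hz' => hin z w'' hz' h3) z0 q.1 (by simpa using hε)
        (by rw [← dist_eq_norm]; exact hq.1)
      change avg F ‖z0‖ w'' = 0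
      rw [h4]
      exact h2
    have hzero := han.eqOn_zero_of_preconnected_of_eventuallyEq_zero
      (convex_ball w' ε).isPreconnected hq2 hev
    change ∀ᶠ q in 𝓝 (z0, w'), u q = 0
    filter_upwards [ball_mem_nhds (z0, w') hε] with p hp'
    rw [mem_ball, Prod.dist_eq, max_lt_iff] at hp'
    have h3 : ‖p.2 - w'‖ < ε := by rw [← dist_eq_norm]; exact hp'.2
    have h4 := hvert z0 p.2 ε (fun z hz' => hin z p.2 hz' h3) p.1 z0
      (by rw [← dist_eq_norm]; exact hp'.1) (by simpa using hε)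
    have h5 : g p.2 = 0 := hzero (by rw [mem_ball, dist_eq_norm]; exact h3)
    change avg F ‖p.1‖ p.2 = 0
    rw [h4]
    exact h5
  have hsub : {p | ρ p < 0} ⊆ G :=
    hconn.isPreconnected.subset_of_closure_inter_subset hGo hne hclosed
  have hsub2 : {p | ρ p < 0} ⊆ {p | u p = 0} := fun p hp => (hsub hp).self_of_nhds
  have hcl : closure {p | ρ p < 0} ⊆ {p | u p = 0} :=
    closure_minimal hsub2 (isClosed_eq huc continuous_const)
  intro r w hr hrw
  have h1 : ((r : ℂ), w) ∈ closure {p | ρ p < 0} := by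
    rw [hf.closure_eq]
    exact hrw
  have h2 : u ((r : ℂ), w) = 0 := hcl h1
  have h3 : ‖(r : ℂ)‖ = r := by rw [Complex.norm_real, Real.norm_of_nonneg hr]
  change avg F ‖(r : ℂ)‖ w = 0 at h2
  rwa [h3] at h2

end Pool.Helper51.Hart
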